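import Mathlib
import Pool.Agent.H28.Comb

namespace Pool.Agent.Results.MP_2744a5_an.Surjective

open Pool.Agent.H28.Comb

theorem result : ∃ (V : Type) (o : V) (par φ : V → V) (lam : ℂ), IsTree o par ∧
    BddComp o par φ ∧ ‖lam‖ ≤ 1 ∧ Hyp o par φ lam ∧ Function.Bijective φ :=
  ⟨W, (0, 0), pa, Φ 1, 1, tree, main.1, by simp, main.2, Φ_bij 1⟩

end Pool.Agent.Results.MP_2744a5_an.Surjective
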